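import Pool.Agent.K3h83.IN.Stm3

set_option autoImplicit false

open scoped BigOperators Classical

noncomputable section

namespace Pool.Agent.K3h17.IN

open Pool.Agent.K3h83.IN

theorem t_T1 : T1 := by
  intro p q _ _ M X _ _ _ _ φ E R hS e he m hc
  obtain ⟨c, hcdef⟩ : ∃ c : M, c = φ e m * m⁻¹ := ⟨_, rfl⟩
  rw [← hcdef] at hc
  have h1 : φ e m = c * m := by rw [hcdef, inv_mul_cancel_right]
  have hcm : ∀ x : M, x * c = c * x := fun x => (Subgroup.mem_center_iff.1 hc x)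
  have hpow : ∀ i : ℕ, φ (e ^ i) m = c ^ i * m := by
    intro i
    induction i with
    | zero => simp
    | succ i ih =>
      rw [pow_succ', map_mul, MulAut.mul_apply, ih, map_mul, hS.cen e _ (Subgroup.pow_mem _ hc i), h1,
        pow_succ (c : M) i, mul_assoc (c ^ i) c m]
  have hp1 : c ^ p = 1 := by
    have h2 := hpow p
    rw [hS.Epow e he, map_one, MulAut.one_apply] at h2
    exact mul_eq_right.1 h2.symm
  have hq1 : c ^ q = 1 := by
    have h2 : (φ e m) ^ q = m ^ q := by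
      rw [← map_pow]
      exact hS.cen e _ (hS.sy.pow m)
    have h3 : Commute c m := (hcm m).symm
    rw [h1, h3.mul_pow] at h2
    exact mul_eq_right.1 h2
  have hcop : Nat.Coprime p q := (Nat.coprime_primes Fact.out Fact.out).2 hS.ne
  have h4 : c = 1 := by
    have h5 : orderOf c ∣ Nat.gcd p q :=
      Nat.dvd_gcd (orderOf_dvd_of_pow_eq_one hp1) (orderOf_dvd_of_pow_eq_one hq1)
    rw [hcop] at h5
    exact orderOf_eq_one_iff.1 (Nat.dvd_one.1 h5)
  rw [h1, h4, one_mul]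

/-- the commutator with `y` -/
def bt {q : ℕ} {M : Type} [Group M] (hS : Sy q M) (y : M) : M →* Subgroup.center M where
  toFun n := ⟨n * y * n⁻¹ * y⁻¹, hS.com n y⟩
  map_one' := by
    apply Subtype.ext
    simp
  map_mul' a b := by
    apply Subtype.ext
    have h1 : a * (b * y * b⁻¹ * y⁻¹) = (b * y * b⁻¹ * y⁻¹) * a :=
      Subgroup.mem_center_iff.1 (hS.com b y) a
    have h2 : (a * y * a⁻¹ * y⁻¹) * (b * y * b⁻¹ * y⁻¹) =
        (b * y * b⁻¹ * y⁻¹) * (a * y * a⁻¹ * y⁻¹) :=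
      Subgroup.mem_center_iff.1 (hS.com b y) _
    change a * b * y * (a * b)⁻¹ * y⁻¹ = (a * y * a⁻¹ * y⁻¹) * (b * y * b⁻¹ * y⁻¹)
    rw [h2]
    calc a * b * y * (a * b)⁻¹ * y⁻¹ = a * (b * y * b⁻¹ * y⁻¹) * (y * a⁻¹ * y⁻¹) := by group
      _ = (b * y * b⁻¹ * y⁻¹) * a * (y * a⁻¹ * y⁻¹) := by rw [h1]
      _ = _ := by group

theorem bt_coe {q : ℕ} {M : Type} [Group M] (hS : Sy q M) (y n : M) :
    ((bt hS y n : Subgroup.center M) : M) = n * y * n⁻¹ * y⁻¹ := rfl

theorem bt_center {q : ℕ} {M : Type} [Group M] (hS : Sy q M) (y z : M)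
    (hz : z ∈ Subgroup.center M) : bt hS y z = 1 := by
  apply Subtype.ext
  rw [bt_coe, ← Subgroup.mem_center_iff.1 hz y, mul_inv_cancel_right, mul_inv_cancel]
  rfl

theorem bt_pow {q : ℕ} {M : Type} [Group M] (hS : Sy q M) (y n : M) : bt hS y n ^ q = 1 := by
  rw [← map_pow]
  exact bt_center hS y _ (hS.pow n)

theorem bt_one {q : ℕ} {M : Type} [Group M] (hS : Sy q M) (y n : M) (h : bt hS y n = 1) :
    n * y = y * n := by
  have h1 : n * y * n⁻¹ * y⁻¹ = 1 := by
    rw [← bt_coe hS, h]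
    rfl
  rw [mul_inv_eq_one, mul_inv_eq_iff_eq_mul] at h1
  exact h1

theorem bt_of_comm {q : ℕ} {M : Type} [Group M] (hS : Sy q M) (y n : M) (h : n * y = y * n) :
    bt hS y n = 1 := by
  apply Subtype.ext
  rw [bt_coe, h, mul_inv_cancel_right, mul_inv_cancel]
  rfl

/-- averaging -/
theorem avg {p q : ℕ} [Fact p.Prime] [Fact q.Prime] {M X : Type} [Group M] [Finite M]
    [Group X] [Finite X] {φ : X →* MulAut M} {E R : Subgroup X} (hS : SD p q φ E R)
    (H : Subgroup X) (hH : H ≤ E) (n : M) : ∃ n' : M, (∀ h ∈ H, φ h n' = n') ∧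
      (∀ y : M, (∀ h ∈ H, φ h y = y) → bt hS.sy y n' = bt hS.sy y n ^ Nat.card H) ∧
      ∀ x : X, (∀ h ∈ H, x * h = h * x) → φ x n = n → φ x n' * n'⁻¹ ∈ Subgroup.center M := by
  let Q := M ⧸ Subgroup.center M
  let _ : CommGroup Q := { (inferInstance : Group Q) with
    mul_comm := by
      intro a b
      obtain ⟨a, rfl⟩ := QuotientGroup.mk_surjective a
      obtain ⟨b, rfl⟩ := QuotientGroup.mk_surjective b
      change ((a * b : M) : Q) = ((b * a : M) : Q)
      rw [QuotientGroup.eq]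
      have h := hS.sy.com b⁻¹ a⁻¹
      have e : (a * b)⁻¹ * (b * a) = b⁻¹ * a⁻¹ * (b⁻¹)⁻¹ * (a⁻¹)⁻¹ := by group
      rw [e]
      exact h }
  let _ : CommGroup (Subgroup.center M) := { (inferInstance : Group (Subgroup.center M)) with
    mul_comm := fun a b => Subtype.ext (Subgroup.mem_center_iff.1 b.2 a) }
  let _ : Fintype H := Fintype.ofFinite H
  obtain ⟨n', hn'⟩ := QuotientGroup.mk_surjective (∏ h : H, ((φ h n : M) : Q))
  have hle : ∀ x : X, Subgroup.center M ≤ (Subgroup.center M).comap (φ x).toMonoidHom := by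
    intro x z hz
    rw [Subgroup.mem_comap]
    change φ x z ∈ Subgroup.center M
    rw [hS.cen x z hz]
    exact hz
  let ψ : X → Q →* Q := fun x => QuotientGroup.map _ _ (φ x).toMonoidHom (hle x)
  have hψ : ∀ (x : X) (m : M), ψ x (m : Q) = ((φ x m : M) : Q) := fun x m => rfl
  have key : ∀ x : X, ψ x (∏ h : H, ((φ h n : M) : Q)) = ∏ h : H, ((φ h n : M) : Q) →
      φ x n' * n'⁻¹ ∈ Subgroup.center M := by
    intro x hx
    have h1 : ((n' : M) : Q) = ((φ x n' : M) : Q) := by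
      rw [← hψ, hn', hx]
    rw [QuotientGroup.eq] at h1
    have h2 := Subgroup.mem_center_iff.1 h1 n'
    have h3 : φ x n' * n'⁻¹ = n'⁻¹ * φ x n' := by
      have h4 : φ x n' = n'⁻¹ * φ x n' * n' := by
        rw [← h2]
        group
      conv_lhs => rw [h4]
      group
    rw [h3]
    exact h1
  refine ⟨n', ?_, ?_, ?_⟩
  · intro h' hh'
    refine t_T1 p q M X φ E R hS h' (hH hh') n' (key h' ?_)
    rw [map_prod]
    refine Fintype.prod_equiv (Equiv.mulLeft (⟨h', hh'⟩ : H)) _ _ fun h => ?_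
    rw [hψ]
    have : φ h' (φ (h : X) n) = φ (h' * (h : X)) n := by
      rw [map_mul, MulAut.mul_apply]
    rw [this]
    rfl
  · intro y hy
    have hker : Subgroup.center M ≤ (bt hS.sy y).ker := fun z hz => bt_center hS.sy y z hz
    let β : Q →* Subgroup.center M := QuotientGroup.lift _ (bt hS.sy y) hker
    have hβ : ∀ m : M, β (m : Q) = bt hS.sy y m := fun m => rfl
    rw [← hβ n', hn', map_prod]
    have h1 : ∀ h : H, β ((φ h n : M) : Q) = bt hS.sy y n := by
      intro h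
      rw [hβ]
      apply Subtype.ext
      rw [bt_coe, bt_coe]
      have h2 : φ h (n * y * n⁻¹ * y⁻¹) = φ h n * y * (φ h n)⁻¹ * y⁻¹ := by
        rw [map_mul, map_mul, map_mul, map_inv, map_inv, hy h h.2]
      rw [← h2]
      exact hS.cen h _ (hS.sy.com n y)
    rw [Finset.prod_congr rfl fun h _ => h1 h, Finset.prod_const, Finset.card_univ,
      Nat.card_eq_fintype_card]
  · intro x hx hn
    refine key x ?_
    rw [map_prod]
    refine Finset.prod_congr rfl fun h _ => ?_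
    rw [hψ, ← MulAut.mul_apply, ← map_mul, hx h h.2, map_mul, MulAut.mul_apply, hn]

theorem card_pow {p : ℕ} [Fact p.Prime] {X : Type} [Group X] [Finite X] {E H : Subgroup X}
    (hE : ∀ a ∈ E, a ^ p = 1) (hH : H ≤ E) : ∃ k : ℕ, Nat.card H = p ^ k := by
  have h : IsPGroup p H := by
    intro h
    refine ⟨1, ?_⟩
    apply Subtype.ext
    rw [pow_one]
    change (h : X) ^ p = 1
    exact hE h (hH h.2)
  exact IsPGroup.iff_card.1 h

theorem bt_trivial {p q : ℕ} [Fact p.Prime] [Fact q.Prime] {M X : Type} [Group M] [Finite M]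
    [Group X] [Finite X] {φ : X →* MulAut M} {E R : Subgroup X} (hS : SD p q φ E R)
    (H : Subgroup X) (hH : H ≤ E) (y n : M) (h : bt hS.sy y n ^ Nat.card H = 1) :
    bt hS.sy y n = 1 := by
  obtain ⟨k, hk⟩ := card_pow hS.Epow hH
  rw [hk] at h
  have hcop : Nat.Coprime (p ^ k) q :=
    Nat.Coprime.pow_left k ((Nat.coprime_primes Fact.out Fact.out).2 hS.ne)
  have h5 : orderOf (bt hS.sy y n) ∣ Nat.gcd (p ^ k) q :=
    Nat.dvd_gcd (orderOf_dvd_of_pow_eq_one h) (orderOf_dvd_of_pow_eq_one (bt_pow hS.sy y n))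
  rw [hcop] at h5
  exact orderOf_eq_one_iff.1 (Nat.dvd_one.1 h5)

theorem t_T2 (_h : T1) : T2 := by
  intro p q _ _ M X _ _ _ _ φ E R hS H hH
  refine ⟨fun z hz h _ => hS.cen h z hz, ?_⟩
  intro m hm hcomm
  rw [Subgroup.mem_center_iff]
  intro n
  obtain ⟨n', h1, h2, -⟩ := avg hS H hH n
  have h3 : bt hS.sy m n' = 1 := bt_of_comm hS.sy m n' (hcomm n' h1).symm
  rw [h2 m hm] at h3
  exact bt_one hS.sy m n (bt_trivial hS H hH m n h3)

theorem t_T3 (_h : T1) : T3 := by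
  intro p q _ _ M X _ _ _ _ φ E R hS H₁ H₂ hE a ha b hb
  have hH₁ : H₁ ≤ E := hE ▸ le_sup_left
  have hH₂ : H₂ ≤ E := hE ▸ le_sup_right
  obtain ⟨a', h1, h2, h3⟩ := avg hS H₂ hH₂ a
  have h4 : ∀ h ∈ H₁, φ h a' = a' := by
    intro h hh
    refine t_T1 p q M X φ E R hS h (hH₁ hh) a' (h3 h ?_ (ha h hh))
    intro k hk
    exact hS.Eab h (hH₁ hh) k (hH₂ hk)
  have h5 : E ≤ (MulAction.stabilizer (MulAut M) a').comap φ := by
    rw [← hE, sup_le_iff]
    exact ⟨fun h hh => h4 h hh, fun h hh => h1 h hh⟩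
  have h6 : a' ∈ Subgroup.center M := hS.fpf a' fun e he => h5 he
  have h7 : bt hS.sy b a' = 1 := bt_center hS.sy b a' h6
  rw [h2 b hb] at h7
  exact bt_one hS.sy b a (bt_trivial hS H₂ hH₂ b a h7)

end Pool.Agent.K3h17.IN
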